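import Pool.Agent.H606.GU.Stm

/-! TASK FIN of project GU (helper606): the correlation conjecture for boxes from the upper half
and the lower half on the cubes. -/

open MeasureTheory Filter Topology Finset
open Pool.Agent.H606.GU

namespace Pool.Agent.H122.GU.FIN

/-- the tuples with the last coordinate in `[0, 1)` and the differences in the box -/
def KB {d : ℕ} (a b : Fin d → ℝ) : Set (Fin (d + 1) → ℝ) :=
  {y | (∀ i : Fin d, y i.castSucc - y (Fin.last d) ∈ Set.Icc (a i) (b i)) ∧
    y (Fin.last d) ∈ Set.Ico (0 : ℝ) 1}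

lemma convex_KB {d : ℕ} (a b : Fin d → ℝ) : Convex ℝ (KB a b) := by
  intro y hy z hz p q hp hq hpq
  refine ⟨fun i => ?_, convex_Ico 0 1 hy.2 hz.2 hp hq hpq⟩
  have h := convex_Icc (a i) (b i) (hy.1 i) (hz.1 i) hp hq hpq
  simp only [smul_eq_mul] at h
  have h2 : (p • y + q • z) i.castSucc - (p • y + q • z) (Fin.last d) =
      p * (y i.castSucc - y (Fin.last d)) + q * (z i.castSucc - z (Fin.last d)) := by
    simp only [Pi.add_apply, Pi.smul_apply, smul_eq_mul]
    ring
  rw [h2]
  exact h

lemma meas_KB {d : ℕ} (a b : Fin d → ℝ) : MeasurableSet (KB a b) := by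
  have h1 : KB a b = (⋂ i : Fin d, (fun y : Fin (d + 1) → ℝ => y i.castSucc - y (Fin.last d)) ⁻¹'
      Set.Icc (a i) (b i)) ∩ (fun y : Fin (d + 1) → ℝ => y (Fin.last d)) ⁻¹' Set.Ico (0 : ℝ) 1 := by
    ext y
    simp only [KB, Set.mem_ofPred_eq, Set.mem_inter_iff, Set.mem_iInter, Set.mem_preimage]
  rw [h1]
  refine (MeasurableSet.iInter fun i => ?_).inter ?_
  · have h2 : Measurable fun y : Fin (d + 1) → ℝ => y i.castSucc - y (Fin.last d) :=
      (measurable_pi_apply i.castSucc).sub (measurable_pi_apply (Fin.last d))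
    exact measurableSet_preimage h2 measurableSet_Icc
  · exact measurableSet_preimage (measurable_pi_apply _) measurableSet_Ico

lemma bound_KB {d : ℕ} (a b : Fin d → ℝ) : ∃ B : ℝ, 0 < B ∧ ∀ y ∈ KB a b, ∀ i, -B ≤ y i ∧ y i < B := by
  refine ⟨1 + (∑ i, |a i| + ∑ i, |b i|), ?_, ?_⟩
  · have h1 : 0 ≤ ∑ i, |a i| := sum_nonneg fun i _ => abs_nonneg _
    have h2 : 0 ≤ ∑ i, |b i| := sum_nonneg fun i _ => abs_nonneg _
    linarith
  · intro y hy i
    have h1 : 0 ≤ ∑ i, |a i| := sum_nonneg fun i _ => abs_nonneg _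
    have h2 : 0 ≤ ∑ i, |b i| := sum_nonneg fun i _ => abs_nonneg _
    have h3 := hy.2.1
    have h4 := hy.2.2
    induction i using Fin.lastCases with
    | last => constructor <;> linarith
    | cast i =>
      have h5 := (hy.1 i).1
      have h6 := (hy.1 i).2
      have h7 : |a i| ≤ ∑ i, |a i| := single_le_sum (f := fun i => |a i|) (fun i _ => abs_nonneg _) (mem_univ i)
      have h8 : |b i| ≤ ∑ i, |b i| := single_le_sum (f := fun i => |b i|) (fun i _ => abs_nonneg _) (mem_univ i)
      have h9 := neg_abs_le (a i)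
      have h10 := le_abs_self (b i)
      constructor <;> linarith

lemma Av_KB {d N : ℕ} (x : Fin N → ℝ) (R : ℝ) (a b : Fin d → ℝ) :
    Av x R (KB a b) = (bn x a b : ℝ) / R := by
  classical
  unfold Av
  congr 1
  obtain ⟨S, hS⟩ : ∃ S : Finset (Fin (d + 1) → Fin N), S = {s : Fin (d + 1) → Fin N |
      Function.Injective s ∧
      ∀ i : Fin d, x (s i.castSucc) - x (s (Fin.last d)) ∈ Set.Icc (a i) (b i)}.toFinset := ⟨_, rfl⟩
  have h1 : (bn x a b : ℝ) = (S.card : ℝ) := by
    rw [hS]
    unfold bn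
    rw [Set.ncard_eq_toFinset_card']
  have h2 : ∀ t : ℝ, (cnt x (KB a b) t : ℝ) =
      ∑ s ∈ S, (Set.Ioc (x (s (Fin.last d)) - 1) (x (s (Fin.last d)))).indicator (fun _ => (1 : ℝ)) t := by
    intro t
    unfold cnt
    rw [Set.ncard_eq_toFinset_card']
    have h3 : {s : Fin (d + 1) → Fin N | Function.Injective s ∧ (fun i => x (s i) - t) ∈ KB a b}.toFinset
        = S.filter (fun s => t ∈ Set.Ioc (x (s (Fin.last d)) - 1) (x (s (Fin.last d)))) := by
      ext s
      simp only [hS, KB, Set.mem_ofPred_eq, Set.mem_toFinset, mem_filter, sub_sub_sub_cancel_right,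
        Set.mem_Ico, Set.mem_Ioc]
      constructor
      · rintro ⟨h4, h5, h6, h7⟩
        exact ⟨⟨h4, h5⟩, by linarith, by linarith⟩
      · rintro ⟨⟨h4, h5⟩, h6, h7⟩
        exact ⟨h4, h5, by linarith, by linarith⟩
    rw [h3, card_filter, Nat.cast_sum]
    refine sum_congr rfl fun s _ => ?_
    by_cases h : t ∈ Set.Ioc (x (s (Fin.last d)) - 1) (x (s (Fin.last d)))
    · rw [if_pos h, Set.indicator_of_mem h, Nat.cast_one]
    · rw [if_neg h, Set.indicator_of_notMem h, Nat.cast_zero]
  simp only [h2]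
  rw [integral_finsetSum, h1]
  · have h3 : ∀ s ∈ S, ∫ t : ℝ,
        (Set.Ioc (x (s (Fin.last d)) - 1) (x (s (Fin.last d)))).indicator (fun _ => (1 : ℝ)) t = 1 := by
      intro s _
      rw [integral_indicator measurableSet_Ioc, setIntegral_const, smul_eq_mul, mul_one]
      simp
    rw [sum_congr rfl h3, sum_const, nsmul_eq_mul, mul_one]
  · intro s _
    rw [integrable_indicator_iff measurableSet_Ioc]
    exact integrableOn_const (by simp)

lemma int_KB (hRHO : S_RHO) {d : ℕ} (a b : Fin d → ℝ) : ∫ y in KB a b, rho y = bI a b := by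
  obtain ⟨f, hf⟩ : ∃ f : (Fin d → ℝ) → ℝ, f = (Set.Icc a b).indicator (fun u => rho (sn u 0)) :=
    ⟨_, rfl⟩
  have hcs : Continuous fun u : Fin d → ℝ => sn u 0 := by
    rw [continuous_pi_iff]
    intro i
    induction i using Fin.lastCases with
    | last =>
      simp only [sn, Fin.snoc_last]
      exact continuous_const
    | cast i =>
      simp only [sn, Fin.snoc_castSucc]
      exact continuous_apply i
  have hfm : Measurable f := by
    rw [hf]
    exact ((hRHO.1 (Fin (d + 1))).comp hcs).measurable.indicator measurableSet_Icc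
  have h1 : ∫ y in KB a b, rho y = ∫ z : ℝ × (Fin d → ℝ),
      (Set.Ico (0 : ℝ) 1).indicator (fun _ => (1 : ℝ)) z.1 * f (fun i => z.2 i - z.1) := by
    rw [← integral_indicator (meas_KB a b)]
    rw [← (volume_preserving_piFinSuccAbove (fun _ : Fin (d + 1) => ℝ) (Fin.last d)).integral_comp'
      (g := fun z : ℝ × (Fin d → ℝ) =>
        (Set.Ico (0 : ℝ) 1).indicator (fun _ => (1 : ℝ)) z.1 * f (fun i => z.2 i - z.1))]
    refine integral_congr_ae (Eventually.of_forall fun y => ?_)
    have h2 : (MeasurableEquiv.piFinSuccAbove (fun _ : Fin (d + 1) => ℝ) (Fin.last d)) y =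
        (y (Fin.last d), fun i => y i.castSucc) := by
      simp only [MeasurableEquiv.piFinSuccAbove_apply, Fin.insertNthEquiv_last]
      rfl
    beta_reduce
    rw [h2]
    dsimp only
    have h3 : sn (fun i => y i.castSucc - y (Fin.last d)) 0 = fun i => y i - y (Fin.last d) := by
      funext i
      induction i using Fin.lastCases with
      | last => simp only [sn, Fin.snoc_last, sub_self]
      | cast i => simp only [sn, Fin.snoc_castSucc]
    by_cases hy : y ∈ KB a b
    · rw [Set.indicator_of_mem hy, Set.indicator_of_mem hy.2, hf, Set.indicator_of_mem, one_mul, h3,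
        hRHO.2.2.1]
      exact ⟨fun i => (hy.1 i).1, fun i => (hy.1 i).2⟩
    · rw [Set.indicator_of_notMem hy]
      by_cases hl : y (Fin.last d) ∈ Set.Ico (0 : ℝ) 1
      · rw [hf, Set.indicator_of_notMem (s := Set.Icc a b), mul_zero]
        intro h4
        exact hy ⟨fun i => ⟨h4.1 i, h4.2 i⟩, hl⟩
      · rw [Set.indicator_of_notMem hl, zero_mul]
  have hsk : MeasurePreserving (fun z : ℝ × (Fin d → ℝ) => (z.1, fun i => z.2 i - z.1))
      (volume.prod volume) (volume.prod volume) := by
    refine (MeasurePreserving.id (volume : Measure ℝ)).skew_product (g := fun (v : ℝ) (u : Fin d → ℝ) =>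
      (fun i => u i - v)) ?_ ?_
    · rw [measurable_pi_iff]
      intro i
      exact ((measurable_pi_apply i).comp measurable_snd).sub measurable_fst
    · refine Eventually.of_forall fun v => ?_
      exact (measurePreserving_sub_right (volume : Measure (Fin d → ℝ)) (fun _ => v)).map_eq
  have h2 : ∫ z : ℝ × (Fin d → ℝ),
      (Set.Ico (0 : ℝ) 1).indicator (fun _ => (1 : ℝ)) z.1 * f (fun i => z.2 i - z.1) =
      ∫ z : ℝ × (Fin d → ℝ), (Set.Ico (0 : ℝ) 1).indicator (fun _ => (1 : ℝ)) z.1 * f z.2 := by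
    have h3 : AEStronglyMeasurable (fun z : ℝ × (Fin d → ℝ) =>
        (Set.Ico (0 : ℝ) 1).indicator (fun _ => (1 : ℝ)) z.1 * f z.2)
        (Measure.map (fun z : ℝ × (Fin d → ℝ) => (z.1, fun i => z.2 i - z.1)) (volume.prod volume)) :=
      (((measurable_const.indicator measurableSet_Ico).comp measurable_fst).mul
        (hfm.comp measurable_snd)).aestronglyMeasurable
    have h4 := integral_map hsk.measurable.aemeasurable h3
    rw [hsk.map_eq] at h4
    exact h4.symm
  rw [h1, h2, Measure.volume_eq_prod, integral_prod_mul, integral_indicator measurableSet_Ico,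
    setIntegral_const, hf, integral_indicator measurableSet_Icc]
  simp [bI]

lemma trans_KB (hRHO : S_RHO) {k : ℕ} (A : Set (Fin k → ℝ)) (τ : ℝ) (hA : MeasurableSet A) :
    MeasurableSet {y : Fin k → ℝ | (fun i => y i - τ) ∈ A} ∧
    ∫ y in {y : Fin k → ℝ | (fun i => y i - τ) ∈ A}, rho y = ∫ y in A, rho y := by
  have hm : MeasurableSet {y : Fin k → ℝ | (fun i => y i - τ) ∈ A} := by
    have h1 : Measurable fun y : Fin k → ℝ => (fun i => y i - τ) := by
      rw [measurable_pi_iff]
      intro i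
      exact (measurable_pi_apply i).sub measurable_const
    exact h1 hA
  refine ⟨hm, ?_⟩
  rw [← integral_indicator hm, ← integral_indicator hA,
    ← integral_sub_right_eq_self (A.indicator rho) (fun _ : Fin k => τ)]
  refine integral_congr_ae (Eventually.of_forall fun y => ?_)
  beta_reduce
  by_cases hy : (fun i => y i - τ) ∈ A
  · have h2 : y - (fun _ : Fin k => τ) ∈ A := hy
    rw [Set.indicator_of_mem h2, Set.indicator_of_mem (s := {y : Fin k → ℝ | (fun i => y i - τ) ∈ A}) hy]
    exact (hRHO.2.2.1 (Fin k) y τ).symm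
  · have h2 : y - (fun _ : Fin k => τ) ∉ A := hy
    rw [Set.indicator_of_notMem h2,
      Set.indicator_of_notMem (s := {y : Fin k → ℝ | (fun i => y i - τ) ∈ A}) hy]

theorem t_FIN (hAV : S_AV) (hTC : S_TC) (hINT : S_INT) (hUPC : S_UPC) (hSETS : S_SETS)
    (hRHO : S_RHO) (hFIS : S_FIS) : S_FIN := by
  intro C d hU hL a b
  obtain ⟨B, hB0, hB⟩ := bound_KB a b
  have hd1 : 1 ≤ d + 1 := Nat.succ_le_succ (Nat.zero_le d)
  have hbk : Bornology.IsBounded (KB a b) := by
    refine (Metric.isBounded_Icc (fun _ : Fin (d + 1) => -B) (fun _ => B)).subset fun y hy => ?_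
    exact ⟨fun i => (hB y hy i).1, fun i => (hB y hy i).2.le⟩
  have hup : ∀ ε : ℝ, 0 < ε → ∀ᶠ T in atTop, (bn (C.x T) a b : ℝ) / C.R T ≤ bI a b + ε := by
    intro ε hε
    have h1 := hUPC C (Fin (d + 1)) 1 zero_le_one hU (KB a b) (meas_KB a b) hbk
      ((convex_KB a b).addHaar_frontier volume) ε hε
    filter_upwards [h1] with T hT
    rw [Av_KB, int_KB hRHO, one_mul] at hT
    exact hT
  -- the translate
  obtain ⟨KT, hKT⟩ : ∃ KT : Set (Fin (d + 1) → ℝ), KT = {y | (fun i => y i - B) ∈ KB a b} := ⟨_, rfl⟩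
  obtain ⟨Q, hQ⟩ : ∃ Q : Set (Fin (d + 1) → ℝ), Q = tile (d + 1) (2 * B) 0 := ⟨_, rfl⟩
  have hmT : MeasurableSet KT := by
    rw [hKT]
    exact (trans_KB hRHO (KB a b) B (meas_KB a b)).1
  have hiT : ∫ y in KT, rho y = bI a b := by
    rw [hKT, (trans_KB hRHO (KB a b) B (meas_KB a b)).2, int_KB hRHO]
  have hsub : KT ⊆ Q := by
    intro y hy
    rw [hKT] at hy
    rw [hQ]
    intro l
    have h1 := hB (fun i => y i - B) hy l
    rw [Nat.cast_zero, zero_mul, zero_add, one_mul]
    constructor <;> linarith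
  obtain ⟨hQm, hQb, hQf⟩ : MeasurableSet Q ∧ Bornology.IsBounded Q ∧ volume (frontier Q) = 0 := by
    rw [hQ]
    exact (hSETS (d + 1) (2 * B) hd1 (by linarith)).1 0
  have hTc : Convex ℝ KT := by
    rw [hKT]
    intro y hy z hz p q hp hq hpq
    have h1 := convex_KB a b (x := fun i => y i - B) hy (y := fun i => z i - B) hz hp hq hpq
    have h2 : (p • (fun i => y i - B) + q • (fun i => z i - B) : Fin (d + 1) → ℝ) =
        fun i => (p • y + q • z) i - B := by
      funext i
      simp only [Pi.add_apply, Pi.smul_apply, smul_eq_mul]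
      have h3 : B = (p + q) * B := by rw [hpq, one_mul]
      linear_combination h3
    rw [h2] at h1
    exact h1
  have hTf : volume (frontier KT) = 0 := hTc.addHaar_frontier volume
  have hDf : volume (frontier (Q \ KT)) = 0 := by
    have h1 : frontier (Q \ KT) ⊆ frontier Q ∪ frontier KT := by
      rw [Set.sdiff_eq]
      refine (frontier_inter_subset _ _).trans ?_
      rw [frontier_compl]
      exact Set.union_subset_union Set.inter_subset_left Set.inter_subset_right
    refine measure_mono_null h1 ?_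
    rw [measure_union_null_iff]
    exact ⟨hQf, hTf⟩
  have hrI : IntegrableOn rho Q := by
    have h1 : IsCompact (closure Q) := hQb.isCompact_closure
    exact (((hRHO.1 (Fin (d + 1))).continuousOn.integrableOn_compact h1)).mono_set subset_closure
  have hsplit : mm (d + 1) (2 * B) = bI a b + ∫ y in Q \ KT, rho y := by
    unfold mm
    rw [← hQ, ← hiT, ← setIntegral_union Set.disjoint_sdiff_right (hQm.diff hmT)
      (hrI.mono_set hsub) (hrI.mono_set Set.sdiff_subset), Set.union_sdiff_cancel hsub]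
  have hlow : ∀ ε : ℝ, 0 < ε → ∀ᶠ T in atTop, bI a b - ε ≤ (bn (C.x T) a b : ℝ) / C.R T := by
    intro ε hε
    have h1 := hL (2 * B) (by linarith) (ε / 2) (by linarith)
    have h2 := hUPC C (Fin (d + 1)) 1 zero_le_one hU (Q \ KT) (hQm.diff hmT) (hQb.subset Set.sdiff_subset)
      hDf (ε / 2) (by linarith)
    have h3 := C.hR.eventually_gt_atTop 0
    filter_upwards [h1, h2, h3] with T h1 h2 h3
    obtain ⟨-, hA2, hA3, -, -⟩ := hAV (Fin (d + 1)) (C.N T) (C.x T) (C.R T) h3
    have h4 := hA3 KT (Q \ KT) hmT (hQb.subset hsub) (hQm.diff hmT) (hQb.subset Set.sdiff_subset)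
      Set.disjoint_sdiff_right
    rw [Set.union_sdiff_cancel hsub] at h4
    have h5 := hA2 (KB a b) B
    rw [← hKT, Av_KB] at h5
    rw [← hQ, hsplit] at h1
    rw [← h5]
    linarith
  rw [tendsto_order]
  constructor
  · intro l hl
    filter_upwards [hlow ((bI a b - l) / 2) (by linarith)] with T hT
    linarith
  · intro u hu
    filter_upwards [hup ((u - bI a b) / 2) (by linarith)] with T hT
    linarith

end Pool.Agent.H122.GU.FIN
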