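import Pool.Agent.H606.GU.Stm2

/-! TASK REDL of project GU2 (helper606): the lower half at the level `n` from the level `n + 1`.
The lemmas on `sn` are those of `Pool.Agent.H401.GU.RED` (helper401). -/

open MeasureTheory Filter Topology Finset
open Pool.Agent.H606.GU

namespace Pool.Agent.H122.GU.REDL

lemma sn_castSucc {n : ℕ} (u : Fin n → ℝ) (v : ℝ) (l : Fin n) : sn u v l.castSucc = u l := by
  simp [sn]

lemma sn_last {n : ℕ} (u : Fin n → ℝ) (v : ℝ) : sn u v (Fin.last n) = v := by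
  simp [sn]

lemma sn_init {n : ℕ} (y : Fin (n + 1) → ℝ) :
    sn (fun l : Fin n => y l.castSucc) (y (Fin.last n)) = y := by
  funext i
  refine Fin.lastCases ?_ (fun j => ?_) i
  · rw [sn_last]
  · rw [sn_castSucc]

lemma continuous_sn {n : ℕ} : Continuous (fun p : (Fin n → ℝ) × ℝ => sn p.1 p.2) := by
  refine continuous_pi fun i => ?_
  refine Fin.lastCases ?_ (fun j => ?_) i
  · simp only [sn_last]; exact continuous_snd
  · simp only [sn_castSucc]; exact (continuous_apply j).comp continuous_fst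

/-- first `n` coordinates in `[0, a)`, the last one in `[a, a + L)` -/
def PR (n : ℕ) (a L : ℝ) : Set (Fin (n + 1) → ℝ) :=
  {y | (fun l : Fin n => y l.castSucc) ∈ tile n a 0 ∧ y (Fin.last n) ∈ Set.Ico a (a + L)}

lemma mem_tile0 {n : ℕ} {a : ℝ} {y : Fin n → ℝ} : y ∈ tile n a 0 ↔ ∀ l, 0 ≤ y l ∧ y l < a := by
  unfold tile
  simp only [Set.mem_ofPred_eq, Nat.cast_zero, zero_mul, zero_add, one_mul]

lemma convex_PR (n : ℕ) (a L : ℝ) : Convex ℝ (PR n a L) := by
  intro y hy z hz p q hp hq hpq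
  refine ⟨?_, convex_Ico a (a + L) hy.2 hz.2 hp hq hpq⟩
  rw [mem_tile0]
  intro l
  exact convex_Ico 0 a (mem_tile0.1 hy.1 l) (mem_tile0.1 hz.1 l) hp hq hpq

lemma meas_PR (n : ℕ) (a L : ℝ) : MeasurableSet (PR n a L) := by
  have h1 : PR n a L = (⋂ i : Fin n, (fun y : Fin (n + 1) → ℝ => y i.castSucc) ⁻¹'
      Set.Ico 0 a) ∩ (fun y : Fin (n + 1) → ℝ => y (Fin.last n)) ⁻¹' Set.Ico a (a + L) := by
    ext y
    simp only [PR, mem_tile0, Set.mem_ofPred_eq, Set.mem_inter_iff, Set.mem_iInter, Set.mem_preimage,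
      Set.mem_Ico]
  rw [h1]
  refine (MeasurableSet.iInter fun i => ?_).inter ?_
  · exact measurableSet_preimage (measurable_pi_apply _) measurableSet_Ico
  · exact measurableSet_preimage (measurable_pi_apply _) measurableSet_Ico

lemma bdd_PR (n : ℕ) {a L : ℝ} (ha : 0 < a) (hL : 0 ≤ L) : Bornology.IsBounded (PR n a L) := by
  refine (Metric.isBounded_Icc (fun _ : Fin (n + 1) => (0 : ℝ)) (fun _ => a + L)).subset fun y hy => ?_
  have h : ∀ i, 0 ≤ y i ∧ y i ≤ a + L := by
    intro i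
    refine Fin.lastCases ?_ (fun j => ?_) i
    · exact ⟨ha.le.trans hy.2.1, hy.2.2.le⟩
    · have := mem_tile0.1 hy.1 j
      exact ⟨this.1, by linarith [this.2]⟩
  exact ⟨fun i => (h i).1, fun i => (h i).2⟩

/-- the lower bound of the integral of the correlation function over `PR` -/
lemma int_PR (hRHO : S_RHO) (hFIS : S_FIS) (hSUM : S_SUM) (n : ℕ) {a L : ℝ} (hL : 0 ≤ L) : (L - n) * mm n a ≤ ∫ y in PR n a L, rho y := by
  have hcont : ∀ m : ℕ, Continuous (rho : (Fin m → ℝ) → ℝ) := fun m => hRHO.1 (Fin m)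
  set e := MeasurableEquiv.piFinSuccAbove (fun _ : Fin (n + 1) => ℝ) (Fin.last n) with he
  have hmp : MeasurePreserving e volume volume :=
    volume_preserving_piFinSuccAbove (fun _ : Fin (n + 1) => ℝ) (Fin.last n)
  have he1 : ∀ y : Fin (n + 1) → ℝ, (e y).1 = y (Fin.last n) := fun y => rfl
  have he2 : ∀ y : Fin (n + 1) → ℝ, (e y).2 = fun l : Fin n => y l.castSucc := by
    intro y
    funext l
    have : (e y).2 l = y ((Fin.last n).succAbove l) := rfl
    rw [this, Fin.succAbove_last]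
  have hpre : e ⁻¹' (Set.Ico a (a + L) ×ˢ tile n a 0) = PR n a L := by
    ext y
    simp only [Set.mem_preimage, Set.mem_prod, he1, he2, PR, Set.mem_ofPred_eq]
    tauto
  have h1 := hmp.setIntegral_preimage_emb e.measurableEmbedding
    (fun p : ℝ × (Fin n → ℝ) => rho (sn p.2 p.1)) (Set.Ico a (a + L) ×ˢ tile n a 0)
  rw [hpre] at h1
  have h2 : ∀ y : Fin (n + 1) → ℝ, rho (sn (e y).2 (e y).1) = rho y := by
    intro y
    rw [he1, he2, sn_init]
  simp only [h2] at h1
  rw [h1]
  have htm : MeasurableSet (tile n a 0) := by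
    have h3 : tile n a 0 = ⋂ i : Fin n, (fun y : Fin n → ℝ => y i) ⁻¹' Set.Ico 0 a := by
      ext y
      simp only [mem_tile0, Set.mem_iInter, Set.mem_preimage, Set.mem_Ico]
    rw [h3]
    exact MeasurableSet.iInter fun i => measurableSet_preimage (measurable_pi_apply _) measurableSet_Ico
  have htK : tile n a 0 ⊆ Set.Icc (fun _ => 0) (fun _ => a) := fun y hy =>
    ⟨fun i => (mem_tile0.1 hy i).1, fun i => (mem_tile0.1 hy i).2.le⟩
  have hc1 : Continuous (fun p : ℝ × (Fin n → ℝ) => rho (sn p.2 p.1)) :=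
    (hcont (n + 1)).comp (continuous_sn.comp (continuous_snd.prodMk continuous_fst))
  have hint : IntegrableOn (fun p : ℝ × (Fin n → ℝ) => rho (sn p.2 p.1))
      (Set.Ico a (a + L) ×ˢ tile n a 0) :=
    (hc1.continuousOn.integrableOn_compact (isCompact_Icc.prod isCompact_Icc)).mono_set
      (Set.prod_mono Set.Ico_subset_Icc_self htK)
  have hti : IntegrableOn (rho : (Fin n → ℝ) → ℝ) (tile n a 0) :=
    ((hcont n).continuousOn.integrableOn_compact isCompact_Icc).mono_set htK
  unfold IntegrableOn at hint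
  rw [Measure.volume_eq_prod, ← Measure.prod_restrict] at hint ⊢
  rw [integral_prod_symm _ hint]
  unfold mm
  rw [← integral_const_mul]
  refine integral_mono_ae (hti.const_mul _) ?_ ?_
  · exact hint.integral_prod_right
  · refine Eventually.of_forall fun y => ?_
    dsimp only
    obtain ⟨hs1, hs2⟩ := hSUM n y
    have hvc : Continuous fun v : ℝ => rho (sn y v) := hc1.comp (continuous_id.prodMk continuous_const)
    have h4 : ∫ v in Set.Ico a (a + L), (rho y - rho (sn y v)) ≤ n * rho y := by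
      rw [← hs2]
      exact setIntegral_le_integral hs1 (Eventually.of_forall fun v =>
        sub_nonneg.2 (hFIS.2.2.2 n y v))
    have h5 : ∫ v in Set.Ico a (a + L), (rho y - rho (sn y v)) =
        L * rho y - ∫ v in Set.Ico a (a + L), rho (sn y v) := by
      rw [integral_sub]
      · rw [setIntegral_const, smul_eq_mul, measureReal_def, Real.volume_Ico,
          ENNReal.toReal_ofReal (by linarith)]
        ring
      · exact integrableOn_const (by simp)
      · exact (hvc.continuousOn.integrableOn_compact isCompact_Icc).mono_set Set.Ico_subset_Icc_self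
    rw [h5] at h4
    linarith

section counting

variable {N : ℕ} (x : Fin N → ℝ)

lemma cnt_PR_le (n : ℕ) (a L : ℝ) (t : ℝ) :
    cnt x (PR n a L) t ≤ cnt x (tile n a 0) t * tc x L 0 (t + a) := by
  unfold cnt tc
  rw [← Set.ncard_prod]
  refine Set.ncard_le_ncard_of_injOn (fun s => (fun l : Fin n => s l.castSucc, s (Fin.last n)))
    ?_ ?_ (Set.toFinite _)
  · rintro s ⟨hs, hs1, hs2⟩
    refine ⟨⟨hs.comp (Fin.castSucc_injective n), hs1⟩, ?_⟩
    simp only [Nat.cast_zero, zero_mul, zero_add, one_mul, Set.mem_ofPred_eq]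
    constructor
    · linarith [hs2.1]
    · linarith [hs2.2]
  · intro s _ s' _ h
    have h1 := congrArg Prod.fst h
    have h2 := congrArg Prod.snd h
    dsimp only at h1 h2
    funext i
    refine Fin.lastCases ?_ (fun j => ?_) i
    · exact h2
    · exact congrFun h1 j

end counting

/-- the truncated power -/
lemma trunc {n : ℕ} {B p q : ℝ} (hp : 0 ≤ p) (hq : 0 ≤ q) :
    p ^ n * q ≤ |B| ^ (n + 1) + (if B ≤ p then p ^ (n + 1) else 0) + (if B ≤ q then q ^ (n + 1) else 0) := by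
  have h0 : 0 ≤ |B| ^ (n + 1) := by positivity
  have hp1 : 0 ≤ (if B ≤ p then p ^ (n + 1) else 0) := by split_ifs <;> positivity
  have hq1 : 0 ≤ (if B ≤ q then q ^ (n + 1) else 0) := by split_ifs <;> positivity
  rcases le_total q p with h | h
  · have h1 : p ^ n * q ≤ p ^ (n + 1) := by
      rw [pow_succ]
      exact mul_le_mul_of_nonneg_left h (pow_nonneg hp n)
    by_cases hB : B ≤ p
    · rw [if_pos hB] at hp1 ⊢
      linarith
    · have h2 : p ^ (n + 1) ≤ |B| ^ (n + 1) :=
        pow_le_pow_left₀ hp ((not_le.1 hB).le.trans (le_abs_self B)) _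
      linarith
  · have h1 : p ^ n * q ≤ q ^ (n + 1) := by
      rw [pow_succ]
      exact mul_le_mul_of_nonneg_right (pow_le_pow_left₀ hp h n) hq
    by_cases hB : B ≤ q
    · rw [if_pos hB] at hq1 ⊢
      linarith
    · have h2 : q ^ (n + 1) ≤ |B| ^ (n + 1) :=
        pow_le_pow_left₀ hq ((not_le.1 hB).le.trans (le_abs_self B)) _
      linarith

/-- the integrated inequality for one configuration -/
lemma integrated (hAV : S_AV) (hTC : S_TC) {N : ℕ} (x : Fin N → ℝ) {R : ℝ} (hR : 0 < R)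
    (hx : ∀ j, 0 ≤ x j ∧ x j ≤ R) {n : ℕ} (hn : 1 ≤ n) {a : ℝ} (ha : 0 < a) {M : ℕ} (hM : 1 ≤ M)
    {B η : ℝ} (hB : 0 < B) (hη : 0 < η) :
    Av x R (PR n a (M * a)) ≤ (1 + η) * (M * a) * Av x R (tile n a 0) +
      M * B ^ (n + 1) / (η * (M * a)) *
        ((∫ t in Set.Icc (-(M * a)) R, |(tc x (M * a) 0 t : ℝ) - M * a|) / R) +
      2 * M * ((∫ t : ℝ, (if B ≤ (tc x a 0 t : ℝ) then (tc x a 0 t : ℝ) ^ (n + 1) else 0)) / R) := by
  have : Nonempty (Fin n) := ⟨⟨0, hn⟩⟩
  have hM0 : (0 : ℝ) < M := by exact_mod_cast hM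
  obtain ⟨L, hLdef⟩ : ∃ L, L = (M : ℝ) * a := ⟨_, rfl⟩
  have hL : 0 < L := by rw [hLdef]; positivity
  rw [← hLdef]
  obtain ⟨f, hf⟩ : ∃ f : ℝ → ℝ, f = fun t => (cnt x (tile n a 0) t : ℝ) := ⟨_, rfl⟩
  obtain ⟨h, hh⟩ : ∃ h : ℝ → ℝ, h = fun t => (cnt x (PR n a L) t : ℝ) := ⟨_, rfl⟩
  obtain ⟨G1, hG1⟩ : ∃ G1 : ℝ → ℝ, G1 = (Set.Icc (-L) R).indicator (fun u => |(tc x L 0 u : ℝ) - L|) :=
    ⟨_, rfl⟩
  obtain ⟨u, hu⟩ : ∃ u : ℝ → ℝ, u = fun t =>
    (if B ≤ (tc x a 0 t : ℝ) then (tc x a 0 t : ℝ) ^ (n + 1) else 0) := ⟨_, rfl⟩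
  have tcL := hTC N x L hL
  have tcA := hTC N x a ha
  have htile : MeasurableSet (tile n a 0) ∧ Bornology.IsBounded (tile n a 0) := by
    constructor
    · have h3 : tile n a 0 = ⋂ i : Fin n, (fun y : Fin n → ℝ => y i) ⁻¹' Set.Ico 0 a := by
        ext y
        simp only [mem_tile0, Set.mem_iInter, Set.mem_preimage, Set.mem_Ico]
      rw [h3]
      exact MeasurableSet.iInter fun i =>
        measurableSet_preimage (measurable_pi_apply _) measurableSet_Ico
    · exact (Metric.isBounded_Icc (fun _ => (0 : ℝ)) (fun _ => a)).subset fun y hy =>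
        ⟨fun i => (mem_tile0.1 hy i).1, fun i => (mem_tile0.1 hy i).2.le⟩
  have hfi : Integrable f := by
    rw [hf]
    exact (hAV (Fin n) N x R hR).1 _ htile.1 htile.2
  have hhi : Integrable h := by
    rw [hh]
    exact (hAV (Fin (n + 1)) N x R hR).1 _ (meas_PR n a L) (bdd_PR n ha hL.le)
  have hG1i : Integrable G1 := by
    rw [hG1, integrable_indicator_iff measurableSet_Icc]
    refine Measure.integrableOn_of_bounded (M := (N : ℝ) + L) (by simp) ?_ ?_
    · exact ((tcL.2.2.2.2.1 0).sub_const L).abs.aestronglyMeasurable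
    · refine ae_of_all _ fun t => ?_
      have h1 : (tc x L 0 t : ℝ) ≤ N := by exact_mod_cast tcL.2.2.2.2.2.2.1 0 t
      have h2 : (0 : ℝ) ≤ tc x L 0 t := Nat.cast_nonneg _
      rw [Real.norm_eq_abs, abs_abs, abs_le]
      constructor <;> linarith
  have hu0 : ∀ t, 0 ≤ u t := by
    intro t
    rw [hu]
    dsimp only
    split_ifs <;> positivity
  have hui : Integrable u := by
    have hsupp : Function.support u ⊆ Set.Icc (-(((1 : ℕ) : ℝ) * a)) R := by
      intro t ht
      by_contra hc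
      apply ht
      have := tcA.2.2.2.2.2.1 1 R hx 0 (by norm_num) t hc
      simp only [hu, this, Nat.cast_zero]
      rw [zero_pow (by omega), ite_self]
    rw [← integrableOn_iff_integrable_of_support_subset hsupp]
    refine Measure.integrableOn_of_bounded (M := (N : ℝ) ^ (n + 1)) (by simp) ?_ ?_
    · rw [hu]
      exact (Measurable.ite (measurableSet_le measurable_const (tcA.2.2.2.2.1 0))
        ((tcA.2.2.2.2.1 0).pow_const _) measurable_const).aestronglyMeasurable
    · refine ae_of_all _ fun t => ?_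
      have h1 : (tc x a 0 t : ℝ) ≤ N := by exact_mod_cast tcA.2.2.2.2.2.2.1 0 t
      have h2 : (0 : ℝ) ≤ tc x a 0 t := Nat.cast_nonneg _
      rw [Real.norm_eq_abs, abs_of_nonneg (hu0 t), hu]
      dsimp only
      split_ifs
      · exact pow_le_pow_left₀ h2 h1 _
      · positivity
  -- the pointwise inequality
  have hpt : ∀ t : ℝ, h t ≤ (1 + η) * L * f t + (M * B ^ (n + 1) / (η * L) * G1 (t + a) +
      (M * u t + ∑ i ∈ range M, u (t + a + i * a))) := by
    intro t
    have hg1 : ∀ u, 0 ≤ G1 u := by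
      intro u
      rw [hG1]
      exact Set.indicator_nonneg (fun _ _ => abs_nonneg _) u
    have hf0 : 0 ≤ f t := by
      rw [hf]
      exact Nat.cast_nonneg _
    have hg0 : (0 : ℝ) ≤ tc x L 0 (t + a) := Nat.cast_nonneg _
    have h1 : h t ≤ f t * tc x L 0 (t + a) := by
      rw [hh, hf]
      beta_reduce
      exact_mod_cast cnt_PR_le x n a L t
    have h2 : 0 ≤ ∑ i ∈ range M, u (t + a + i * a) := sum_nonneg fun i _ => hu0 _
    have h3 : 0 ≤ M * u t := mul_nonneg hM0.le (hu0 t)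
    have h4 : 0 ≤ M * B ^ (n + 1) / (η * L) * G1 (t + a) := mul_nonneg (by positivity) (hg1 _)
    rcases le_or_gt (tc x L 0 (t + a) : ℝ) ((1 + η) * L) with hc | hc
    · have h5 := mul_le_mul_of_nonneg_left hc hf0
      linarith
    · have hmem : t + a ∈ Set.Icc (-L) R := by
        by_contra hcon
        have h6 := tcL.2.2.2.2.2.1 1 R hx 0 (by norm_num) (t + a) (by
          rw [Nat.cast_one, one_mul]
          exact hcon)
        rw [h6, Nat.cast_zero] at hc
        have : 0 < (1 + η) * L := by positivity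
        linarith
      have h5 : η * L ≤ G1 (t + a) := by
        rw [hG1, Set.indicator_of_mem hmem]
        refine le_trans ?_ (le_abs_self _)
        linarith
      have h6 : M * B ^ (n + 1) ≤ M * B ^ (n + 1) / (η * L) * G1 (t + a) := by
        calc M * B ^ (n + 1) = M * B ^ (n + 1) / (η * L) * (η * L) := by field_simp
          _ ≤ _ := mul_le_mul_of_nonneg_left h5 (by positivity)
      have h7 : (tc x L 0 (t + a) : ℝ) = ∑ i ∈ range M, (tc x a 0 (t + a + i * a) : ℝ) := by
        have h8 := tcA.2.2.2.2.2.2.2.2 M (t + a)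
        rw [hLdef, ← h8]
        unfold NN
        refine sum_congr rfl fun i _ => ?_
        rw [tcA.2.2.2.1 i (t + a)]
      have h8 : f t ≤ (tc x a 0 t : ℝ) ^ n := by
        rw [hf]
        dsimp only
        rw [← (tcA.1 n 0 t)]
        exact_mod_cast Nat.descFactorial_le_pow _ _
      have h9 : f t * tc x L 0 (t + a) ≤ ∑ i ∈ range M, (B ^ (n + 1) + u t + u (t + a + i * a)) := by
        rw [h7, mul_sum]
        refine sum_le_sum fun i _ => ?_
        have h10 := trunc (n := n) (B := B) (p := (tc x a 0 t : ℝ)) (q := (tc x a 0 (t + a + i * a) : ℝ))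
          (Nat.cast_nonneg _) (Nat.cast_nonneg _)
        rw [abs_of_pos hB] at h10
        rw [hu]
        exact (mul_le_mul_of_nonneg_right h8 (Nat.cast_nonneg _)).trans h10
      have h10 : ∑ i ∈ range M, (B ^ (n + 1) + u t + u (t + a + i * a)) =
          M * B ^ (n + 1) + M * u t + ∑ i ∈ range M, u (t + a + i * a) := by
        rw [sum_add_distrib, sum_const, card_range, nsmul_eq_mul]
        ring
      have h11 : 0 ≤ (1 + η) * L * f t := by positivity
      linarith
  -- integrate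
  have hi1 : Integrable (fun t => (1 + η) * L * f t) := hfi.const_mul _
  have hi2 : Integrable (fun t => M * B ^ (n + 1) / (η * L) * G1 (t + a)) :=
    (hG1i.comp_add_right a).const_mul _
  have hi3 : Integrable (fun t => (M : ℝ) * u t) := hui.const_mul _
  have hi4 : ∀ i ∈ range M, Integrable (fun t => u (t + a + (i : ℕ) * a)) := by
    intro i _
    have h5 := hui.comp_add_right (a + (i : ℕ) * a)
    simpa only [← add_assoc] using h5
  have hi5 : Integrable (fun t => ∑ i ∈ range M, u (t + a + (i : ℕ) * a)) :=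
    integrable_finsetSum _ hi4
  have hint := integral_mono hhi (hi1.add (hi2.add (hi3.add hi5))) hpt
  have e1 : ∫ t, ((fun t => (1 + η) * L * f t) + ((fun t => M * B ^ (n + 1) / (η * L) * G1 (t + a)) +
      ((fun t => (M : ℝ) * u t) + fun t => ∑ i ∈ range M, u (t + a + (i : ℕ) * a)))) t =
      (1 + η) * L * (∫ t, f t) + (M * B ^ (n + 1) / (η * L) *
        (∫ t in Set.Icc (-L) R, |(tc x L 0 t : ℝ) - L|) + (M * (∫ t, u t) + M * ∫ t, u t)) := by
    rw [integral_add' hi1 (hi2.add (hi3.add hi5)), integral_add' hi2 (hi3.add hi5),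
      integral_add' hi3 hi5, integral_const_mul, integral_const_mul, integral_const_mul,
      integral_finsetSum _ hi4]
    have e2 : ∫ t, G1 (t + a) = ∫ t in Set.Icc (-L) R, |(tc x L 0 t : ℝ) - L| := by
      rw [integral_add_right_eq_self G1 a, hG1, integral_indicator measurableSet_Icc]
    have e3 : ∀ i ∈ range M, ∫ t, u (t + a + (i : ℕ) * a) = ∫ t, u t := by
      intro i _
      have := integral_add_right_eq_self (μ := (volume : Measure ℝ)) u (a + (i : ℕ) * a)
      simpa only [← add_assoc] using this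
    rw [e2, sum_congr rfl e3, sum_const, card_range, nsmul_eq_mul]
  rw [e1] at hint
  unfold Av
  have hfin := div_le_div_of_nonneg_right hint hR.le
  rw [hh] at hfin
  refine hfin.trans (le_of_eq ?_)
  rw [hf, hu]
  ring

theorem t_REDL (hAV : S_AV) (hTC : S_TC) (hINT : S_INT) (hUPC : S_UPC) (hSETS : S_SETS)
    (hRHO : S_RHO) (hFIS : S_FIS) (hSUM : S_SUM) (hUI : S_UI) (hLOWA : S_LOWA) : S_REDL := by
  intro C n hn hCon hUp hLow a ha ε hε
  obtain ⟨m, hm⟩ : ∃ m, m = mm n a := ⟨_, rfl⟩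
  have hm0 : 0 ≤ m := by
    rw [hm]
    exact ((hINT n a hn ha).1).1
  -- the parameters
  obtain ⟨η, hη⟩ : ∃ η, η = ε / (5 * (m + 1)) := ⟨_, rfl⟩
  have hη0 : 0 < η := by rw [hη]; positivity
  have hη1 : η * m ≤ ε / 5 := by
    have h1 : η * (m + 1) = ε / 5 := by rw [hη]; field_simp
    linarith
  obtain ⟨B, hB, hUI1⟩ := hUI C (n + 1) 1 (by omega) zero_le_one hUp a ha (a * ε / 10) (by positivity)
  obtain ⟨η', hη'⟩ : ∃ η', η' = ε * a * η / (5 * B ^ (n + 1)) := ⟨_, rfl⟩
  have hη'0 : 0 < η' := by rw [hη']; positivity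
  obtain ⟨L0, hL0, hL⟩ := hCon η' hη'0
  obtain ⟨M, hM⟩ := exists_nat_gt (max (L0 / a) (5 * (n * m + 1) / ε / a))
  have hM1 : L0 / a < M := (le_max_left _ _).trans_lt hM
  have hM2 : 5 * (n * m + 1) / ε / a < M := (le_max_right _ _).trans_lt hM
  have hM3 : (0 : ℝ) < M := lt_trans (by positivity) hM1
  have hM4 : 1 ≤ M := by exact_mod_cast hM3
  rw [div_lt_iff₀ ha] at hM1 hM2
  rw [div_lt_iff₀ hε] at hM2
  obtain ⟨L, hLdef⟩ : ∃ L, L = (M : ℝ) * a := ⟨_, rfl⟩
  rw [← hLdef] at hM1 hM2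
  have hLp : 0 < L := by rw [hLdef]; positivity
  have hlow := hLOWA C (n + 1) (by omega) hUp hLow (PR n a L) (meas_PR n a L) (bdd_PR n ha hLp.le)
    ((convex_PR n a L).addHaar_frontier volume) 1 one_pos
  filter_upwards [hlow, hL L hM1.le, hUI1, C.hR.eventually_gt_atTop 0] with T h1 h2 h3 h4
  have hmain := integrated hAV hTC (C.x T) h4 (fun j => C.hx T j) hn ha hM4 hB hη0
  rw [← hLdef] at hmain
  have hPR := int_PR hRHO hFIS hSUM n hLp.le (a := a)
  rw [← hm] at hPR ⊢
  obtain ⟨X, hX⟩ : ∃ X, X = Av (C.x T) (C.R T) (tile n a 0) := ⟨_, rfl⟩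
  rw [← hX] at hmain ⊢
  have h5 : M * B ^ (n + 1) / (η * L) *
        ((∫ t in Set.Icc (-L) (C.R T), |(tc (C.x T) L 0 t : ℝ) - L|) / C.R T) ≤ L * (ε / 5) := by
    refine (mul_le_mul_of_nonneg_left h2 (by positivity)).trans (le_of_eq ?_)
    rw [hη', hLdef]
    field_simp
  have h6 : 2 * M * ((∫ t : ℝ, (if B ≤ (tc (C.x T) a 0 t : ℝ) then (tc (C.x T) a 0 t : ℝ) ^ (n + 1)
      else 0)) / C.R T) ≤ L * (ε / 5) := by
    refine (mul_le_mul_of_nonneg_left h3 (by positivity)).trans (le_of_eq ?_)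
    rw [hLdef]
    ring
  have h7 : (L - n) * m - 1 ≤ (1 + η) * L * X + L * (ε / 5) + L * (ε / 5) := by linarith
  have h8 : n * m + 1 ≤ L * (ε / 5) := by linarith
  have h9 : L * (η * m) ≤ L * (ε / 5) := mul_le_mul_of_nonneg_left hη1 hLp.le
  have h10 : (1 + η) * L * (m - ε) ≤ (1 + η) * L * X := by
    have h11 : 0 ≤ η * L * ε := by positivity
    have h12 : 0 ≤ L * ε := by positivity
    nlinarith
  exact le_of_mul_le_mul_left h10 (by positivity)

end Pool.Agent.H122.GU.REDL
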